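import Mathlib
import Pool.Agent.H950Z.ApA

set_option autoImplicit false

namespace Pool.Agent.Results.MP_67fb03_al.TorsionAboveApA

universe u

/-- For every prime `p` there is a finitely generated group `G` with no free subsemigroups which
satisfies a nontrivial law, and such that every law of `G` holds in every group `K` having a
normal subgroup `N`, abelian of exponent dividing `p`, with `K / N` abelian. -/
theorem result (p : ℕ) (hp : p.Prime) :
    ∃ (G : Type) (_ : Group G), Group.FG G ∧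
      (∀ a b : G, ∃ u v : FreeSemigroup (Fin 2), u ≠ v ∧
        FreeSemigroup.lift ![a, b] u = FreeSemigroup.lift ![a, b] v) ∧
      (∃ w : FreeGroup ℕ, w ≠ 1 ∧ ∀ f : ℕ → G, FreeGroup.lift f w = 1) ∧
      ∀ w : FreeGroup ℕ, (∀ f : ℕ → G, FreeGroup.lift f w = 1) →
        ∀ (K : Type u) [Group K] (N : Subgroup K) [N.Normal],
          (∀ x ∈ N, ∀ y ∈ N, x * y = y * x) → (∀ x ∈ N, x ^ p = 1) →
          (∀ x y : K ⧸ N, x * y = y * x) →
          ∀ f : ℕ → K, FreeGroup.lift f w = 1 := by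
  obtain ⟨G, _, h1, h2, h3, h4⟩ := Pool.Agent.H950Z.ApA.main p hp.pos
  refine ⟨G, inferInstance, h1, fun a b => ?_, h3, fun w hw K _ N _ k1 k2 k3 f =>
    Pool.Agent.H950Z.ApA.law_pass p w (h4 w hw) K N k1 k2 k3 f⟩
  obtain ⟨k, hk, hka⟩ := isOfFinOrder_iff_pow_eq_one.1 (h2 a)
  have key : ∀ j : ℕ, ∃ u : FreeSemigroup (Fin 2), u.length = j + 1 ∧
      FreeSemigroup.lift ![a, b] u = a ^ (j + 1) := by
    intro j
    induction j with
    | zero => exact ⟨FreeSemigroup.of 0, by simp, by simp⟩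
    | succ j ih =>
      obtain ⟨u, hu1, hu2⟩ := ih
      exact ⟨u * FreeSemigroup.of 0, by simp [hu1], by simp [hu2, pow_succ]⟩
  obtain ⟨u, hu1, hu2⟩ := key k
  obtain ⟨v, hv1, hv2⟩ := key 0
  refine ⟨u, v, fun h => ?_, ?_⟩
  · rw [h, hv1] at hu1
    omega
  · rw [hu2, hv2, pow_succ, hka]
    simp

end Pool.Agent.Results.MP_67fb03_al.TorsionAboveApA
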